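import Mathlib

open Set Real

namespace Pool.Agent.Results.MP_16faa7_an.ConvexThreshold

/-- The set of positive exponents `β` with `γ z^(β-α) (1 - z^α) ≤ 1 - z` for all `z ∈ (0,1)`. -/
def S (γ α : ℝ) : Set ℝ :=
  {β | 0 < β ∧ ∀ z ∈ Ioo (0:ℝ) 1, γ * z ^ (β - α) * (1 - z ^ α) ≤ 1 - z}

/-- The threshold exponent `β(α) = inf S_α`. -/
noncomputable def thr (γ α : ℝ) : ℝ := sInf (S γ α)

/-- Concavity of `y ↦ log (1 - exp (-y))` on `(0,∞)`. -/
theorem conc {y₁ y₂ a b : ℝ} (h₁ : 0 < y₁) (h₂ : 0 < y₂) (ha : 0 < a) (hb : 0 < b)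
    (hab : a + b = 1) :
    a * log (1 - exp (-y₁)) + b * log (1 - exp (-y₂)) ≤ log (1 - exp (-(a * y₁ + b * y₂))) := by
  have e1 : 0 < 1 - exp (-y₁) := by
    have : exp (-y₁) < 1 := by rw [exp_lt_one_iff]; linarith
    linarith
  have e2 : 0 < 1 - exp (-y₂) := by
    have : exp (-y₂) < 1 := by rw [exp_lt_one_iff]; linarith
    linarith
  have hc := strictConcaveOn_log_Ioi.concaveOn.2 (mem_Ioi.2 e1) (mem_Ioi.2 e2) ha.le hb.le hab
  simp only [smul_eq_mul] at hc
  refine hc.trans (Real.log_le_log (by positivity) ?_)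
  have hx := convexOn_exp.2 (mem_univ (-y₁)) (mem_univ (-y₂)) ha.le hb.le hab
  simp only [smul_eq_mul] at hx
  have : a * -y₁ + b * -y₂ = -(a * y₁ + b * y₂) := by ring
  rw [this] at hx
  nlinarith

/-- Reformulation of the defining inequality by `z = exp (-x/α)`. -/
theorem mem_iff {γ α β : ℝ} (hγ : 1 < γ) (hα : 0 < α) :
    β ∈ S γ α ↔ 0 < β ∧ ∀ x : ℝ, 0 < x →
      α * log (γ * (1 - exp (-x))) - (β - α) * x ≤ α * log (1 - exp (-(x / α))) := by
  have key : ∀ x : ℝ, 0 < x →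
      (γ * exp (-(x / α)) ^ (β - α) * (1 - exp (-(x / α)) ^ α) ≤ 1 - exp (-(x / α)) ↔
        α * log (γ * (1 - exp (-x))) - (β - α) * x ≤ α * log (1 - exp (-(x / α)))) := by
    intro x hx
    have h1 : exp (-(x / α)) ^ α = exp (-x) := by
      rw [← Real.exp_mul]; congr 1; field_simp
    have h2 : exp (-(x / α)) ^ (β - α) = exp (-((β - α) * x / α)) := by
      rw [← Real.exp_mul]; congr 1; field_simp
    have e1 : 0 < 1 - exp (-x) := by
      have : exp (-x) < 1 := by rw [exp_lt_one_iff]; linarith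
      linarith
    have e2 : 0 < 1 - exp (-(x / α)) := by
      have : exp (-(x / α)) < 1 := by
        rw [exp_lt_one_iff]; have := div_pos hx hα; linarith
      linarith
    rw [h1, h2]
    have e3 : γ * exp (-((β - α) * x / α)) * (1 - exp (-x)) =
        exp (log (γ * (1 - exp (-x))) - (β - α) * x / α) := by
      rw [sub_eq_add_neg (log _), Real.exp_add, Real.exp_log (by positivity)]; ring
    rw [e3, ← Real.le_log_iff_exp_le e2]
    constructor
    · intro h
      have := mul_le_mul_of_nonneg_left h hα.le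
      have e4 : α * (log (γ * (1 - exp (-x))) - (β - α) * x / α) =
          α * log (γ * (1 - exp (-x))) - (β - α) * x := by field_simp
      linarith
    · intro h
      have e4 : α * (log (γ * (1 - exp (-x))) - (β - α) * x / α) =
          α * log (γ * (1 - exp (-x))) - (β - α) * x := by field_simp
      rw [← e4] at h
      exact le_of_mul_le_mul_left h hα
  constructor
  · rintro ⟨h0, h⟩
    refine ⟨h0, fun x hx => (key x hx).1 (h _ ⟨exp_pos _, ?_⟩)⟩
    rw [exp_lt_one_iff]; have := div_pos hx hα; linarith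
  · rintro ⟨h0, h⟩
    refine ⟨h0, fun z hz => ?_⟩
    have hlz : log z < 0 := Real.log_neg hz.1 hz.2
    have hx : 0 < -(α * log z) := by nlinarith
    have := (key _ hx).2 (h _ hx)
    have e5 : exp (-(-(α * log z) / α)) = z := by
      rw [show -(-(α * log z) / α) = log z by field_simp, Real.exp_log hz.1]
    rw [e5] at this
    exact this

/-- `1 ∈ S_α` when `α γ < 1`, `α < 1`. -/
theorem one_mem {γ α : ℝ} (hγ : 1 < γ) (hα : 0 < α) (h : α < 1 / γ) : (1:ℝ) ∈ S γ α := by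
  have hγ0 : 0 < γ := by linarith
  have hαγ : α * γ < 1 := by rwa [lt_div_iff₀ hγ0] at h
  have hα1 : α < 1 := by nlinarith
  refine ⟨one_pos, fun z hz => ?_⟩
  have hz0 : 0 < z := hz.1
  -- Bernoulli: z^α ≥ ... use z^(1-α) ≤ 1 + (1-α)(z-1)
  have hb : z ^ (1 - α) ≤ 1 + (1 - α) * (z - 1) := by
    have := _root_.rpow_one_add_le_one_add_mul_self (s := z - 1) (by linarith) (p := 1 - α)
      (by linarith) (by linarith)
    simpa using this
  have hm : z ^ (1 - α) * z ^ α = z := by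
    rw [← Real.rpow_add hz0]; simp
  have : z ^ (1 - α) * (1 - z ^ α) ≤ α * (1 - z) := by
    rw [mul_sub, hm]; nlinarith
  calc γ * z ^ (1 - α) * (1 - z ^ α) = γ * (z ^ (1 - α) * (1 - z ^ α)) := by ring
    _ ≤ γ * (α * (1 - z)) := mul_le_mul_of_nonneg_left this hγ0.le
    _ ≤ 1 - z := by nlinarith [hz.2]

/-- For every `γ > 1` the threshold exponent `α ↦ β(α)` is convex on `(0, 1/γ)`. -/
theorem result (γ : ℝ) (hγ : 1 < γ) : ConvexOn ℝ (Ioo 0 (1 / γ)) (thr γ) := by
  refine ⟨convex_Ioo _ _, ?_⟩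
  intro α₁ h₁ α₂ h₂ a b ha hb hab
  rcases ha.eq_or_lt with rfl | ha
  · have : b = 1 := by linarith
    subst this; simp
  rcases hb.eq_or_lt with rfl | hb
  · have : a = 1 := by linarith
    subst this; simp
  simp only [smul_eq_mul]
  have hbdd : ∀ α, BddBelow (S γ α) := fun α => ⟨0, fun β hβ => hβ.1.le⟩
  have p1 : 0 < α₁ := h₁.1
  have p2 : 0 < α₂ := h₂.1
  have pα : 0 < a * α₁ + b * α₂ := by positivity
  -- convex combinations of admissible exponents are admissible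
  have comb : ∀ β₁ ∈ S γ α₁, ∀ β₂ ∈ S γ α₂, a * β₁ + b * β₂ ∈ S γ (a * α₁ + b * α₂) := by
    intro β₁ hβ₁ β₂ hβ₂
    rw [mem_iff hγ p1] at hβ₁
    rw [mem_iff hγ p2] at hβ₂
    rw [mem_iff hγ pα]
    have q1 := hβ₁.1
    have q2 := hβ₂.1
    refine ⟨by positivity, fun x hx => ?_⟩
    have i1 := hβ₁.2 x hx
    have i2 := hβ₂.2 x hx
    have hc := conc (y₁ := x / α₁) (y₂ := x / α₂) (a := a * α₁ / (a * α₁ + b * α₂))
      (b := b * α₂ / (a * α₁ + b * α₂)) (by positivity) (by positivity) (by positivity)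
      (by positivity) (by field_simp)
    have e1 : a * α₁ / (a * α₁ + b * α₂) * (x / α₁) + b * α₂ / (a * α₁ + b * α₂) * (x / α₂) =
        x / (a * α₁ + b * α₂) := by
      field_simp
      linear_combination hab
    rw [e1] at hc
    have hc2 := mul_le_mul_of_nonneg_left hc pα.le
    have e2 : (a * α₁ + b * α₂) * (a * α₁ / (a * α₁ + b * α₂) * log (1 - exp (-(x / α₁))) +
        b * α₂ / (a * α₁ + b * α₂) * log (1 - exp (-(x / α₂)))) =
        a * (α₁ * log (1 - exp (-(x / α₁)))) + b * (α₂ * log (1 - exp (-(x / α₂)))) := by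
      field_simp
    rw [e2] at hc2
    have j1 := mul_le_mul_of_nonneg_left i1 ha.le
    have j2 := mul_le_mul_of_nonneg_left i2 hb.le
    nlinarith
  have n1 : (S γ α₁).Nonempty := ⟨1, one_mem hγ p1 h₁.2⟩
  have n2 : (S γ α₂).Nonempty := ⟨1, one_mem hγ p2 h₂.2⟩
  refine le_of_forall_pos_le_add fun ε hε => ?_
  obtain ⟨β₁, hβ₁, hl₁⟩ := exists_lt_of_csInf_lt n1 (show sInf (S γ α₁) < thr γ α₁ + ε by
    unfold thr; linarith)
  obtain ⟨β₂, hβ₂, hl₂⟩ := exists_lt_of_csInf_lt n2 (show sInf (S γ α₂) < thr γ α₂ + ε by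
    unfold thr; linarith)
  have := csInf_le (hbdd (a * α₁ + b * α₂)) (comb β₁ hβ₁ β₂ hβ₂)
  have t : thr γ (a * α₁ + b * α₂) ≤ a * β₁ + b * β₂ := this
  nlinarith

end Pool.Agent.Results.MP_16faa7_an.ConvexThreshold
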